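import Mathlib
set_option autoImplicit false
namespace Pool.Agent.H822N
open Metric Set

theorem taylor_bound (H : ℂ → ℂ) (p q : ℂ) (R R₁ κ A ε : ℝ) (hR0 : 0 < R) (h8 : 0 < R₁) (hR13 : R₁ ≤ 3 * R)
    (hκ : 2 ≤ κ) (hκR : 2 * R ≤ κ * R₁) (hA : 0 ≤ A) (hε : 0 ≤ ε)
    (hd : DifferentiableOn ℂ H (closedBall p (3 * R)))
    (hAb : ∀ z ∈ sphere p (3 * R), ‖H z‖ ≤ A) (hεb : ∀ z ∈ sphere p R₁, ‖H z‖ ≤ ε)
    (hq : ‖q - p‖ ≤ 2 * R) (L : ℕ) : ‖H q‖ ≤ ε * κ ^ L + 3 * A * (2 / 3) ^ L := by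
  have h3 : 0 < 3 * R := by positivity
  have hd1 : DifferentiableOn ℂ H (ball p (3 * R)) := hd.mono ball_subset_closedBall
  have hdc : DiffContOnCl ℂ H (ball p (3 * R)) := by
    apply DifferentiableOn.diffContOnCl
    rw [closure_ball _ h3.ne']
    exact hd
  have hdc8 : DiffContOnCl ℂ H (ball p R₁) := by
    apply DifferentiableOn.diffContOnCl
    rw [closure_ball _ h8.ne']
    exact hd.mono (closedBall_subset_closedBall hR13)
  have hqb : q ∈ ball p (3 * R) := by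
    rw [mem_ball, dist_eq_norm]; linarith
  have hs := Complex.hasSum_taylorSeries_on_ball hd1 hqb
  set t : ℕ → ℂ := fun n => ((n.factorial : ℂ))⁻¹ • (q - p) ^ n • iteratedDeriv n H p with ht
  have key : ∀ (r C : ℝ), 0 < r → 0 ≤ C → (∀ n : ℕ, ‖iteratedDeriv n H p‖ ≤ n.factorial * C / r ^ n) →
      ∀ n, ‖t n‖ ≤ C * ((2 * R) / r) ^ n := by
    intro r C hR hC hb n
    have hf : (0 : ℝ) < n.factorial := by exact_mod_cast n.factorial_pos
    simp only [ht, norm_smul, norm_inv, norm_pow, Complex.norm_natCast]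
    calc ((n.factorial : ℝ))⁻¹ * (‖q - p‖ ^ n * ‖iteratedDeriv n H p‖)
        ≤ ((n.factorial : ℝ))⁻¹ * ((2 * R) ^ n * (n.factorial * C / r ^ n)) := by
          gcongr
          exact hb n
      _ = (2 * R) ^ n * (C / r ^ n) := by
          generalize (2 * R) ^ n = x
          field_simp
      _ = C * ((2 * R) / r) ^ n := by
          rw [div_pow (2 * R) r]; ring
  have k1 : ∀ n, ‖t n‖ ≤ ε * κ ^ n := by
    intro n
    refine (key R₁ ε h8 hε
      (fun n => Complex.norm_iteratedDeriv_le_of_forall_mem_sphere_norm_le n h8 hdc8 hεb) n).trans ?_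
    have e : (2 * R) / R₁ ≤ κ := by rwa [div_le_iff₀ h8]
    gcongr
  have k2 : ∀ n, ‖t n‖ ≤ A * (2 / 3) ^ n := by
    intro n
    have := key (3 * R) A h3 hA
      (fun n => Complex.norm_iteratedDeriv_le_of_forall_mem_sphere_norm_le n h3 hdc hAb) n
    have e : (2 * R) / (3 * R) = 2 / 3 := by field_simp
    rwa [e] at this
  have hsplit := hs.summable.sum_add_tsum_nat_add L
  rw [hs.tsum_eq] at hsplit
  rw [← hsplit]
  have p1 : ‖∑ i ∈ Finset.range L, t i‖ ≤ ε * κ ^ L := by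
    refine (norm_sum_le _ _).trans ?_
    refine (Finset.sum_le_sum (fun i _ => k1 i)).trans ?_
    rw [← Finset.mul_sum]
    have : ∑ i ∈ Finset.range L, κ ^ i ≤ κ ^ L := by
      rw [geom_sum_eq (by linarith)]
      have : (1 : ℝ) ≤ κ ^ L := one_le_pow₀ (by linarith)
      rw [div_le_iff₀ (by linarith)]
      nlinarith
    gcongr
  have p2 : ‖∑' i, t (i + L)‖ ≤ 3 * A * (2 / 3) ^ L := by
    have hg : HasSum (fun i : ℕ => A * (2 / 3 : ℝ) ^ L * (2 / 3 : ℝ) ^ i) (A * (2 / 3 : ℝ) ^ L * (1 - 2 / 3)⁻¹) :=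
      (hasSum_geometric_of_lt_one (by norm_num) (by norm_num)).mul_left _
    have := tsum_of_norm_bounded hg (fun i => (by
      have := k2 (i + L)
      rw [pow_add] at this
      linarith : ‖t (i + L)‖ ≤ A * (2 / 3 : ℝ) ^ L * (2 / 3 : ℝ) ^ i))
    refine this.trans (le_of_eq ?_)
    norm_num
    ring
  exact (norm_add_le _ _).trans (add_le_add p1 p2)

/-- The weights. -/
def M (k : ℕ) : ℕ := 16 ^ 3 ^ k

theorem M_succ (k : ℕ) : M (k + 1) = M k ^ 3 := by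
  unfold M; rw [pow_succ 3 k, pow_mul]

theorem le_M (k : ℕ) : 16 ≤ M k := by
  unfold M
  calc 16 = 16 ^ 1 := by norm_num
    _ ≤ 16 ^ 3 ^ k := Nat.pow_le_pow_right (by norm_num) (Nat.one_le_pow _ _ (by norm_num))

theorem M_strictMono : StrictMono M := by
  apply strictMono_nat_of_lt_succ
  intro k
  rw [M_succ]
  have := le_M k
  nlinarith [sq_nonneg (M k), Nat.pow_le_pow_left this 2]

theorem M_add (k j : ℕ) : M k + j ≤ M (k + j) := by
  induction j with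
  | zero => simp
  | succ j ih =>
    have := M_strictMono (show k + j < k + (j + 1) by omega)
    omega

theorem lt_M (k : ℕ) : k < M k := by
  have := M_add 0 k
  have h2 := le_M 0
  simp only [zero_add] at this
  omega

theorem summable_weight (m : ℕ) : Summable (fun k => Real.exp (-(M k : ℝ)) * (M k : ℝ) ^ m) := by
  have h := Real.summable_pow_mul_exp_neg_nat_mul m (r := 1) one_pos
  have h2 := h.comp_injective M_strictMono.injective
  refine h2.congr (fun k => ?_)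
  simp only [Function.comp_apply]
  rw [mul_comm]
  norm_num

theorem exp_neg_one_le : Real.exp (-1) ≤ 1 / 2 := by
  have := Real.exp_neg_one_lt_d9
  linarith

theorem exp_neg_nat_le (j : ℕ) : Real.exp (-(j : ℝ)) ≤ (1 / 2) ^ j := by
  have : Real.exp (-(j : ℝ)) = Real.exp (-1) ^ j := by
    rw [← Real.exp_nat_mul]; ring_nf
  rw [this]
  exact pow_le_pow_left₀ (Real.exp_pos _).le exp_neg_one_le j

/-- The tail of the weights is tiny. -/
theorem tail_bound (k : ℕ) (t : ℕ → ℂ) (ht : ∀ j, ‖t j‖ ≤ Real.exp (-(M j : ℝ))) :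
    ‖∑' j, t (j + (k + 1))‖ ≤ 2 * Real.exp (-((M k : ℝ) ^ 3)) := by
  have hg : HasSum (fun j : ℕ => Real.exp (-((M k : ℝ) ^ 3)) * (1 / 2 : ℝ) ^ j)
      (Real.exp (-((M k : ℝ) ^ 3)) * 2) := hasSum_geometric_two.mul_left _
  have := tsum_of_norm_bounded hg (f := fun j => t (j + (k + 1))) (fun j => by
    refine (ht _).trans ?_
    have h1 : (M (k + 1) : ℝ) + j ≤ M (j + (k + 1)) := by
      have := M_add (k + 1) j
      rw [add_comm j (k + 1)]
      exact_mod_cast this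
    have h2 : ((M k : ℝ) ^ 3) = M (k + 1) := by
      rw [M_succ]
      push_cast
      rfl
    calc Real.exp (-(M (j + (k + 1)) : ℝ)) ≤ Real.exp (-((M k : ℝ) ^ 3) + -(j : ℝ)) := by
          apply Real.exp_le_exp.mpr; linarith
      _ = Real.exp (-((M k : ℝ) ^ 3)) * Real.exp (-(j : ℝ)) := Real.exp_add _ _
      _ ≤ _ := by
          gcongr
          exact exp_neg_nat_le j)
  linarith

/-- The three competing exponentials. -/
theorem balance (κ : ℝ) (hκ : 2 ≤ κ) (k : ℕ) (hk : κ ^ 8 ≤ k) (A : ℝ) (hA : 0 ≤ A) :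
    2 * Real.exp (-((M k : ℝ) ^ 3)) * κ ^ (8 * M k ^ 2) +
      3 * (A + (k + 1) * 3 ^ (M k ^ 2)) * (2 / 3 : ℝ) ^ (8 * M k ^ 2) ≤ 2 + 3 * (A + 1) := by
  have h1 : Real.exp (-((M k : ℝ) ^ 3)) * κ ^ (8 * M k ^ 2) ≤ 1 := by
    have e0 : κ ^ 8 ≤ Real.exp (M k) := by
      have h1 : (k : ℝ) ≤ M k := by exact_mod_cast (lt_M k).le
      have h2 := Real.add_one_le_exp (M k : ℝ)
      linarith
    have e1 : Real.exp (-((M k : ℝ) ^ 3)) = (Real.exp (-(M k : ℝ))) ^ (M k ^ 2) := by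
      rw [← Real.exp_nat_mul]
      congr 1
      push_cast
      ring
    rw [e1, pow_mul, ← mul_pow]
    apply pow_le_one₀ (by positivity)
    calc Real.exp (-(M k : ℝ)) * κ ^ 8 ≤ Real.exp (-(M k : ℝ)) * Real.exp (M k) := by gcongr
      _ = 1 := by rw [← Real.exp_add]; simp
  have h2 : ((k : ℝ) + 1) * 3 ^ (M k ^ 2) * (2 / 3 : ℝ) ^ (8 * M k ^ 2) ≤ 1 := by
    have e : (3 : ℝ) ^ (M k ^ 2) * (2 / 3 : ℝ) ^ (8 * M k ^ 2) ≤ (1 / 2) ^ (M k ^ 2) := by
      rw [pow_mul, ← mul_pow]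
      apply pow_le_pow_left₀ (by positivity)
      norm_num
    have e2 : (k : ℝ) + 1 ≤ 2 ^ (M k ^ 2) := by
      have h := lt_M k
      have h' : k + 1 ≤ M k ^ 2 := by nlinarith [le_M k]
      have h'' : M k ^ 2 < 2 ^ (M k ^ 2) := Nat.lt_two_pow_self
      exact_mod_cast h'.trans h''.le
    calc ((k : ℝ) + 1) * 3 ^ (M k ^ 2) * (2 / 3 : ℝ) ^ (8 * M k ^ 2)
        = ((k : ℝ) + 1) * (3 ^ (M k ^ 2) * (2 / 3 : ℝ) ^ (8 * M k ^ 2)) := by ring
      _ ≤ 2 ^ (M k ^ 2) * (1 / 2) ^ (M k ^ 2) := by gcongr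
      _ = 1 := by rw [← mul_pow]; norm_num
  have h3 : A * (2 / 3 : ℝ) ^ (8 * M k ^ 2) ≤ A := by
    have : (2 / 3 : ℝ) ^ (8 * M k ^ 2) ≤ 1 := pow_le_one₀ (by norm_num) (by norm_num)
    nlinarith
  nlinarith

end Pool.Agent.H822N
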