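import Pool.Agent.H822N.Series
set_option autoImplicit false
namespace Pool.Agent.H822N
open Metric Set Topology Filter

variable {n : ℕ}

/-- The coefficients. -/
noncomputable def cf (k : ℕ) : ℂ := ((Real.exp (-(M k : ℝ)) : ℝ) : ℂ)

theorem norm_cf (k : ℕ) : ‖cf k‖ = Real.exp (-(M k : ℝ)) := by
  unfold cf
  rw [Complex.norm_real, Real.norm_eq_abs, abs_of_pos (Real.exp_pos _)]

theorem summable_cf (m : ℕ) : Summable fun k => ‖cf k‖ * (M k : ℝ) ^ m := by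
  simp only [norm_cf]
  exact summable_weight m

theorem summable_cf0 : Summable fun k => ‖cf k‖ := by simpa using summable_cf 0

/-- Key estimate: if the composition with a holomorphic curve extends holomorphically to a disc of radius `3 R`
around `p`, then the terms of the series are bounded on the disc of radius `2 R`. -/
theorem terms_bounded {v : ℕ → EuclideanSpace ℂ (Fin n)} (hv : ∀ k, ‖v k‖ ≤ 1)
    (Φ : ℂ → EuclideanSpace ℂ (Fin n)) (p : ℂ) (R R₁ : ℝ) (hR : 0 < R) (hR₁ : 0 < R₁) (hR13 : R₁ ≤ 3 * R)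
    (W : Set ℂ) (hsub : closedBall p (3 * R) ⊆ W)
    (hΦ : DifferentiableOn ℂ Φ W) (hΦ3 : ∀ w ∈ closedBall p (3 * R), ‖Φ w‖ ≤ 3)
    (h : ℂ → ℂ) (hh : DifferentiableOn ℂ h W)
    (he : ∀ w ∈ closedBall p R₁, ‖Φ w‖ ≤ 1 ∧ h w = F v cf (fun k => M k ^ 2) (Φ w)) :
    ∃ (B : ℝ) (k0 : ℕ), ∀ k, k0 ≤ k → ∀ q : ℂ, ‖q - p‖ ≤ 2 * R →
      ‖cf k * (inner ℂ (v k) (Φ q) : ℂ) ^ (M k ^ 2)‖ ≤ B := by
  obtain ⟨A, hA⟩ := (isCompact_closedBall p (3 * R)).exists_bound_of_continuousOn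
    (hh.continuousOn.mono hsub)
  have hA0 : 0 ≤ A := (norm_nonneg _).trans (hA p (mem_closedBall_self (by positivity)))
  -- the terms
  set t : ℕ → ℂ → ℂ := fun k w => cf k * (inner ℂ (v k) (Φ w) : ℂ) ^ (M k ^ 2) with ht
  have htd : ∀ k, DifferentiableOn ℂ (t k) W := by
    intro k
    have h1 : DifferentiableOn ℂ (fun w : ℂ => (innerSL ℂ (v k)) (Φ w)) W :=
      (innerSL ℂ (v k)).differentiable.comp_differentiableOn hΦ
    have h2 := (h1.pow (M k ^ 2)).const_mul (cf k)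
    exact h2
  have ht3 : ∀ (k j : ℕ), j ≤ k → ∀ w ∈ closedBall p (3 * R), ‖t j w‖ ≤ 3 ^ (M k ^ 2) := by
    intro k j hjk w hw
    have h1 : ‖(inner ℂ (v j) (Φ w) : ℂ)‖ ≤ 3 := by
      refine (norm_inner_le_norm _ _).trans ?_
      have h2 := hΦ3 w hw
      nlinarith [norm_nonneg (v j), norm_nonneg (Φ w), hv j]
    have h2 : ‖cf j‖ ≤ 1 := by
      rw [norm_cf]
      exact Real.exp_le_one_iff.mpr (by simp)
    simp only [ht, norm_mul, norm_pow]
    calc ‖cf j‖ * ‖(inner ℂ (v j) (Φ w) : ℂ)‖ ^ (M j ^ 2) ≤ 1 * 3 ^ (M j ^ 2) := by gcongr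
      _ = 3 ^ (M j ^ 2) := one_mul _
      _ ≤ 3 ^ (M k ^ 2) := by
          apply pow_le_pow_right₀ (by norm_num)
          exact Nat.pow_le_pow_left (M_strictMono.monotone hjk) 2
  set κ : ℝ := 2 + 2 * R / R₁ with hκ
  have hκ2 : 2 ≤ κ := by
    have : 0 ≤ 2 * R / R₁ := by positivity
    linarith
  have hκR : 2 * R ≤ κ * R₁ := by
    rw [hκ, add_mul, div_mul_cancel₀ _ hR₁.ne']
    linarith
  obtain ⟨k0, hk0⟩ := exists_nat_ge (κ ^ 8)
  -- bound on the remainder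
  have hrem : ∀ k, k0 ≤ k → ∀ q : ℂ, ‖q - p‖ ≤ 2 * R →
      ‖h q - ∑ j ∈ Finset.range (k + 1), t j q‖ ≤ 2 + 3 * (A + 1) := by
    intro k hk q hqp
    have hTB := taylor_bound (fun w => h w - ∑ j ∈ Finset.range (k + 1), t j w) p q R R₁ κ
      (A + (k + 1) * 3 ^ (M k ^ 2)) (2 * Real.exp (-((M k : ℝ) ^ 3))) hR hR₁ hR13 hκ2 hκR
      (by positivity) (by positivity)
      ?_ ?_ ?_ hqp (8 * M k ^ 2)
    · refine hTB.trans (balance κ hκ2 k (hk0.trans (by exact_mod_cast hk)) A hA0)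
    · apply DifferentiableOn.mono _ hsub
      apply hh.sub
      apply DifferentiableOn.fun_sum
      intro j _
      exact htd j
    · intro z hz
      have hz' : z ∈ closedBall p (3 * R) := sphere_subset_closedBall hz
      refine (norm_sub_le _ _).trans (add_le_add (hA z hz') ?_)
      refine (norm_sum_le _ _).trans ?_
      refine (Finset.sum_le_card_nsmul _ _ (3 ^ (M k ^ 2) : ℝ) (fun j hj => ?_)).trans ?_
      · exact ht3 k j (by rw [Finset.mem_range] at hj; omega) z hz'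
      · simp
    · intro z hz
      obtain ⟨hzb, hze⟩ := he z (sphere_subset_closedBall hz)
      have hsum : Summable fun j => t j z :=
        Summable.of_norm_bounded summable_cf0 (fun j => norm_term_le _ _ (hv j) hzb)
      have e : h z - ∑ j ∈ Finset.range (k + 1), t j z = ∑' j, t (j + (k + 1)) z := by
        rw [hze]
        have := hsum.sum_add_tsum_nat_add (k + 1)
        unfold F
        rw [← this]
        ring
      show ‖h z - ∑ j ∈ Finset.range (k + 1), t j z‖ ≤ _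
      rw [e]
      exact tail_bound k (fun j => t j z) (fun j => by
        rw [← norm_cf]
        exact norm_term_le _ _ (hv j) hzb)
  refine ⟨2 * (2 + 3 * (A + 1)), k0 + 1, fun k hk q hq => ?_⟩
  show ‖t k q‖ ≤ _
  obtain ⟨k, rfl⟩ : ∃ k', k = k' + 1 := ⟨k - 1, by omega⟩
  have e : t (k + 1) q = (h q - ∑ j ∈ Finset.range (k + 1), t j q) -
      (h q - ∑ j ∈ Finset.range (k + 1 + 1), t j q) := by
    rw [Finset.sum_range_succ _ (k + 1)]; ring
  rw [e]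
  refine (norm_sub_le _ _).trans ?_
  have h1 := hrem k (by omega) q hq
  have h2 := hrem (k + 1) (by omega) q hq
  linarith

/-- Exponential growth. -/
theorem blow (ρ : ℝ) (hρ : 1 < ρ) (B : ℝ) : ∃ k0 : ℕ, ∀ k, k0 ≤ k →
    B < Real.exp (-(M k : ℝ)) * ρ ^ (M k ^ 2) := by
  have h1 : Tendsto (fun m : ℕ => ρ ^ m) atTop atTop := tendsto_pow_atTop_atTop_of_one_lt hρ
  have h2 := (h1.eventually_ge_atTop (2 * Real.exp 1)).and
    ((tendsto_pow_atTop_atTop_of_one_lt (one_lt_two : (1 : ℝ) < 2)).eventually_gt_atTop B)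
  obtain ⟨m0, hm0⟩ := eventually_atTop.mp h2
  refine ⟨m0, fun k hk => ?_⟩
  obtain ⟨h3, h4⟩ := hm0 (M k) (hk.trans (lt_M k).le)
  calc B < 2 ^ M k := h4
    _ = Real.exp (-(M k : ℝ)) * (2 * Real.exp 1) ^ M k := by
        rw [mul_pow, ← Real.exp_nat_mul, mul_comm, mul_assoc, ← Real.exp_add]
        simp
    _ ≤ Real.exp (-(M k : ℝ)) * (ρ ^ M k) ^ M k := by gcongr
    _ = Real.exp (-(M k : ℝ)) * ρ ^ (M k ^ 2) := by rw [← pow_mul, sq]

/-- A sequence of directions that comes close to every direction infinitely often. -/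
theorem exists_dirs (hn : 1 ≤ n) : ∃ v : ℕ → EuclideanSpace ℂ (Fin n), (∀ k, ‖v k‖ = 1) ∧
    ∀ ζ : EuclideanSpace ℂ (Fin n), ‖ζ‖ = 1 → ∀ r > 0, ∀ k0 : ℕ, ∃ k, k0 ≤ k ∧ ‖v k - ζ‖ < r := by
  have hne : Nonempty (sphere (0 : EuclideanSpace ℂ (Fin n)) 1) :=
    ⟨⟨EuclideanSpace.single ⟨0, hn⟩ 1, by simp⟩⟩
  refine ⟨fun k => ((TopologicalSpace.denseSeq (sphere (0 : EuclideanSpace ℂ (Fin n)) 1) k.unpair.1 :
    sphere (0 : EuclideanSpace ℂ (Fin n)) 1) : EuclideanSpace ℂ (Fin n)), fun k => ?_, fun ζ hζ r hr k0 => ?_⟩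
  · have := (TopologicalSpace.denseSeq (sphere (0 : EuclideanSpace ℂ (Fin n)) 1) k.unpair.1).2
    rwa [mem_sphere_zero_iff_norm] at this
  · have hd := (TopologicalSpace.denseRange_denseSeq (sphere (0 : EuclideanSpace ℂ (Fin n)) 1))
    obtain ⟨j, hj⟩ := hd.exists_dist_lt (⟨ζ, by rwa [mem_sphere_zero_iff_norm]⟩ :
      sphere (0 : EuclideanSpace ℂ (Fin n)) 1) hr
    refine ⟨Nat.pair j k0, Nat.right_le_pair j k0, ?_⟩
    simp only [Nat.unpair_pair]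
    rw [← dist_eq_norm, dist_comm]
    exact hj

/-- The terms are unbounded at every point off the closed ball. -/
theorem terms_unbounded {v : ℕ → EuclideanSpace ℂ (Fin n)}
    (hd : ∀ ζ : EuclideanSpace ℂ (Fin n), ‖ζ‖ = 1 → ∀ r > 0, ∀ k0 : ℕ, ∃ k, k0 ≤ k ∧ ‖v k - ζ‖ < r)
    (x : EuclideanSpace ℂ (Fin n)) (hx : 1 < ‖x‖) (B : ℝ) (k0 : ℕ) :
    ∃ k, k0 ≤ k ∧ B < ‖cf k * (inner ℂ (v k) x : ℂ) ^ (M k ^ 2)‖ := by
  set ρ : ℝ := (1 + ‖x‖) / 2 with hρ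
  have hρ1 : 1 < ρ := by rw [hρ]; linarith
  obtain ⟨k1, hk1⟩ := blow ρ hρ1 B
  have hx0 : 0 < ‖x‖ := by linarith
  set ζ : EuclideanSpace ℂ (Fin n) := ((‖x‖⁻¹ : ℝ) : ℂ) • x with hζ
  have hζ1 : ‖ζ‖ = 1 := by
    rw [hζ, norm_smul, Complex.norm_real, Real.norm_eq_abs, abs_of_pos (inv_pos.mpr hx0),
      inv_mul_cancel₀ hx0.ne']
  obtain ⟨k, hk, hkr⟩ := hd ζ hζ1 ((‖x‖ - 1) / 2 / ‖x‖) (by
    apply div_pos _ hx0; linarith) (max k0 k1)
  refine ⟨k, (le_max_left _ _).trans hk, (hk1 k ((le_max_right _ _).trans hk)).trans_le ?_⟩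
  rw [norm_mul, norm_pow, norm_cf]
  have h1 : ‖(inner ℂ ζ x : ℂ)‖ = ‖x‖ := by
    rw [hζ, inner_smul_left, norm_mul, inner_self_eq_norm_sq_to_K]
    simp only [Complex.conj_ofReal, Complex.norm_real, norm_pow, Real.norm_eq_abs]
    rw [abs_of_pos (inv_pos.mpr hx0)]
    simp
    field_simp
  have h2 : ‖(inner ℂ (v k - ζ) x : ℂ)‖ ≤ (‖x‖ - 1) / 2 := by
    refine (norm_inner_le_norm _ _).trans ?_
    rw [lt_div_iff₀ hx0] at hkr
    exact hkr.le
  have h3 : (inner ℂ (v k) x : ℂ) = inner ℂ ζ x + inner ℂ (v k - ζ) x := by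
    rw [← inner_add_left, add_sub_cancel]
  have h4 := norm_sub_le_norm_add (inner ℂ ζ x : ℂ) (inner ℂ (v k - ζ) x : ℂ)
  rw [← h3, h1] at h4
  have h5 : ρ ≤ ‖(inner ℂ (v k) x : ℂ)‖ := by rw [hρ]; linarith
  gcongr

end Pool.Agent.H822N
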