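import Pool.Agent.H822N.Basic
set_option autoImplicit false
namespace Pool.Agent.H822N
open Metric Set Topology

variable {n : ℕ}

/-- The partial derivative in the direction of the `i`-th coordinate. -/
noncomputable def partialDeriv (i : Fin n) (f : EuclideanSpace ℂ (Fin n) → ℂ)
    (z : EuclideanSpace ℂ (Fin n)) : ℂ :=
  fderiv ℂ f z (EuclideanSpace.single i 1)

/-- The iterated partial derivatives. -/
noncomputable def iterPartialDeriv : List (Fin n) → (EuclideanSpace ℂ (Fin n) → ℂ) →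
    EuclideanSpace ℂ (Fin n) → ℂ
  | [], f => f
  | i :: l, f => partialDeriv i (iterPartialDeriv l f)

/-- The series. -/
noncomputable def F (v : ℕ → EuclideanSpace ℂ (Fin n)) (d : ℕ → ℂ) (P : ℕ → ℕ)
    (z : EuclideanSpace ℂ (Fin n)) : ℂ := ∑' k, d k * (inner ℂ (v k) z) ^ P k

theorem norm_inner_le_one {v z : EuclideanSpace ℂ (Fin n)} (hv : ‖v‖ ≤ 1) (hz : ‖z‖ ≤ 1) :
    ‖(inner ℂ v z : ℂ)‖ ≤ 1 :=
  (norm_inner_le_norm v z).trans (mul_le_one₀ hv (norm_nonneg _) hz)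

theorem norm_term_le {v z : EuclideanSpace ℂ (Fin n)} (d : ℂ) (p : ℕ) (hv : ‖v‖ ≤ 1) (hz : ‖z‖ ≤ 1) :
    ‖d * (inner ℂ v z : ℂ) ^ p‖ ≤ ‖d‖ := by
  rw [norm_mul, norm_pow]
  exact mul_le_of_le_one_right (norm_nonneg _) (pow_le_one₀ (norm_nonneg _) (norm_inner_le_one hv hz))

theorem F_continuousOn {v : ℕ → EuclideanSpace ℂ (Fin n)} (hv : ∀ k, ‖v k‖ ≤ 1) {d : ℕ → ℂ} {P : ℕ → ℕ}
    (hd : Summable fun k => ‖d k‖) : ContinuousOn (F v d P) (closedBall 0 1) := by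
  unfold F
  refine continuousOn_tsum (u := fun k => ‖d k‖) (fun k => ?_) hd (fun k z hz => ?_)
  · apply Continuous.continuousOn
    fun_prop
  · exact norm_term_le _ _ (hv k) (mem_closedBall_zero_iff.mp hz)

theorem term_hasFDerivAt (v z : EuclideanSpace ℂ (Fin n)) (d : ℂ) (p : ℕ) :
    HasFDerivAt (fun z : EuclideanSpace ℂ (Fin n) => d * (inner ℂ v z : ℂ) ^ p)
      ((d * (p * (inner ℂ v z : ℂ) ^ (p - 1))) • innerSL ℂ v) z := by
  have h1 : HasFDerivAt (fun z : EuclideanSpace ℂ (Fin n) => (inner ℂ v z : ℂ)) (innerSL ℂ v) z :=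
    (innerSL ℂ v).hasFDerivAt
  have h2 := (h1.pow p).const_mul d
  refine h2.congr_fderiv ?_
  ext w
  simp
  ring

theorem F_hasFDerivAt {v : ℕ → EuclideanSpace ℂ (Fin n)} (hv : ∀ k, ‖v k‖ ≤ 1) {d : ℕ → ℂ} {P : ℕ → ℕ}
    (hd : Summable fun k => ‖d k‖) (hd' : Summable fun k => ‖d k‖ * P k)
    {z : EuclideanSpace ℂ (Fin n)} (hz : z ∈ ball (0 : EuclideanSpace ℂ (Fin n)) 1) :
    HasFDerivAt (F v d P) (∑' k, (d k * (P k * (inner ℂ (v k) z : ℂ) ^ (P k - 1))) • innerSL ℂ (v k)) z ∧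
    Summable (fun k => (d k * (P k * (inner ℂ (v k) z : ℂ) ^ (P k - 1))) • innerSL ℂ (v k)) := by
  have hb : ∀ k (x : EuclideanSpace ℂ (Fin n)), x ∈ ball (0 : EuclideanSpace ℂ (Fin n)) 1 →
      ‖(d k * (P k * (inner ℂ (v k) x : ℂ) ^ (P k - 1))) • innerSL ℂ (v k)‖ ≤ ‖d k‖ * P k := by
    intro k x hx
    have hx1 : ‖x‖ ≤ 1 := (mem_ball_zero_iff.mp hx).le
    rw [norm_smul, innerSL_apply_norm, norm_mul, norm_mul, norm_pow, Complex.norm_natCast]
    have h1 : ‖(inner ℂ (v k) x : ℂ)‖ ^ (P k - 1) ≤ 1 := pow_le_one₀ (norm_nonneg _) (norm_inner_le_one (hv k) hx1)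
    calc ‖d k‖ * (P k * ‖(inner ℂ (v k) x : ℂ)‖ ^ (P k - 1)) * ‖v k‖
        ≤ ‖d k‖ * (P k * 1) * 1 := by
          gcongr
          exact hv k
      _ = ‖d k‖ * P k := by ring
  constructor
  · unfold F
    refine hasFDerivAt_tsum_of_isPreconnected hd' isOpen_ball (convex_ball _ _).isPreconnected
      (fun k x _ => term_hasFDerivAt (v k) x (d k) (P k)) hb (x₀ := z) hz ?_ hz
    exact Summable.of_norm_bounded hd (fun k => norm_term_le _ _ (hv k) (mem_ball_zero_iff.mp hz).le)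
  · exact Summable.of_norm_bounded hd' (fun k => hb k z hz)

theorem F_partialDeriv {v : ℕ → EuclideanSpace ℂ (Fin n)} (hv : ∀ k, ‖v k‖ ≤ 1) {d : ℕ → ℂ} {P : ℕ → ℕ}
    (hd : Summable fun k => ‖d k‖) (hd' : Summable fun k => ‖d k‖ * P k) (i : Fin n)
    {z : EuclideanSpace ℂ (Fin n)} (hz : z ∈ ball (0 : EuclideanSpace ℂ (Fin n)) 1) :
    partialDeriv i (F v d P) z =
      F v (fun k => d k * P k * inner ℂ (v k) (EuclideanSpace.single i (1 : ℂ))) (fun k => P k - 1) z := by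
  obtain ⟨h1, h2⟩ := F_hasFDerivAt hv hd hd' hz
  unfold partialDeriv
  rw [h1.fderiv]
  have h3 := (ContinuousLinearMap.apply ℂ ℂ (EuclideanSpace.single i (1 : ℂ))).map_tsum h2
  simp only [ContinuousLinearMap.apply_apply] at h3
  rw [h3]
  unfold F
  apply tsum_congr
  intro k
  simp only [smul_apply, innerSL_apply_apply, smul_eq_mul]
  ring

/-- Every iterated partial derivative of a rapidly decreasing series is again such a series. -/
theorem iterPartialDeriv_F {v : ℕ → EuclideanSpace ℂ (Fin n)} (hv : ∀ k, ‖v k‖ ≤ 1) (d : ℕ → ℂ) (P : ℕ → ℕ)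
    (hP : ∀ k, P k ≤ M k ^ 2) (hd : ∀ m : ℕ, Summable fun k => ‖d k‖ * (M k : ℝ) ^ m) (l : List (Fin n)) :
    ∃ (d' : ℕ → ℂ) (P' : ℕ → ℕ), (∀ k, P' k ≤ M k ^ 2) ∧ (∀ m : ℕ, Summable fun k => ‖d' k‖ * (M k : ℝ) ^ m) ∧
      ∀ z ∈ ball (0 : EuclideanSpace ℂ (Fin n)) 1, iterPartialDeriv l (F v d P) z = F v d' P' z := by
  induction l with
  | nil => exact ⟨d, P, hP, hd, fun z _ => rfl⟩
  | cons i l ih =>
    obtain ⟨d', P', hP', hd', he⟩ := ih
    have hcmp : ∀ (m k : ℕ), ‖d' k‖ * P' k * (M k : ℝ) ^ m ≤ ‖d' k‖ * (M k : ℝ) ^ (m + 2) := by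
      intro m k
      have h : (P' k : ℝ) ≤ (M k : ℝ) ^ 2 := by exact_mod_cast hP' k
      calc ‖d' k‖ * P' k * (M k : ℝ) ^ m ≤ ‖d' k‖ * (M k : ℝ) ^ 2 * (M k : ℝ) ^ m := by gcongr
        _ = ‖d' k‖ * (M k : ℝ) ^ (m + 2) := by ring
    have hs0 : Summable fun k => ‖d' k‖ := by simpa using hd' 0
    have hs1 : Summable fun k => ‖d' k‖ * P' k := by
      refine Summable.of_nonneg_of_le (fun k => by positivity) (fun k => ?_) (hd' 2)
      simpa using hcmp 0 k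
    refine ⟨fun k => d' k * P' k * inner ℂ (v k) (EuclideanSpace.single i (1 : ℂ)), fun k => P' k - 1,
      fun k => (Nat.sub_le _ _).trans (hP' k), fun m => ?_, fun z hz => ?_⟩
    · refine Summable.of_nonneg_of_le (fun k => by positivity) (fun k => ?_) (hd' (m + 2))
      refine le_trans ?_ (hcmp m k)
      rw [norm_mul, norm_mul, Complex.norm_natCast]
      have : ‖(inner ℂ (v k) (EuclideanSpace.single i (1 : ℂ)) : ℂ)‖ ≤ 1 :=
        norm_inner_le_one (hv k) (by simp)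
      calc ‖d' k‖ * P' k * ‖(inner ℂ (v k) (EuclideanSpace.single i (1 : ℂ)) : ℂ)‖ * (M k : ℝ) ^ m
          ≤ ‖d' k‖ * P' k * 1 * (M k : ℝ) ^ m := by gcongr
        _ = _ := by ring
    · have hev : iterPartialDeriv l (F v d P) =ᶠ[𝓝 z] F v d' P' := by
        filter_upwards [isOpen_ball.mem_nhds hz] with y hy using he y hy
      show partialDeriv i (iterPartialDeriv l (F v d P)) z = _
      rw [← F_partialDeriv hv hs0 hs1 i hz]
      unfold partialDeriv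
      rw [hev.fderiv_eq]

end Pool.Agent.H822N
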